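import Pool.Agent.L7h49.PM.Def2

set_option autoImplicit false

/-!
# Project PM, part FINK: the final induction
-/

namespace Pool.Agent.L7h93.PM

open Pool.Agent.L7h49.PM

theorem abs_coord_le (v p : E2) (i : Fin 2) : |v i - p i| ≤ ‖v - p‖ := by
  have h := PiLp.norm_apply_le (v - p) i
  simpa [Real.norm_eq_abs] using h

theorem first_state (hC : S_CON) {V : Type} (G : SimpleGraph V) (f : V → E2) (C : ℝ)
    (hR : Rough G f C) (t : ℕ) :
    St G f C 0 (fun k : Fin t => 200 * C * ((k : ℕ) : ℝ))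
      (fun k => Fat G f C {pt 0 (200 * C * ((k : ℕ) : ℝ))}) := by
  have hC1 : 1 ≤ C := hR.one
  have hsep : ∀ k l : Fin t, k ≠ l →
      200 * C ≤ |200 * C * ((k : ℕ) : ℝ) - 200 * C * ((l : ℕ) : ℝ)| := by
    intro k l hkl
    have hkl' : (k : ℕ) ≠ (l : ℕ) := fun h => hkl (Fin.ext h)
    rw [← mul_sub, abs_mul, abs_of_pos (by linarith : (0:ℝ) < 200 * C)]
    have h1 : (1:ℝ) ≤ |((k : ℕ) : ℝ) - ((l : ℕ) : ℝ)| := by
      rcases lt_or_gt_of_ne hkl' with h | h
      · have : ((k : ℕ) : ℝ) + 1 ≤ ((l : ℕ) : ℝ) := by exact_mod_cast h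
        rw [abs_sub_comm, abs_of_nonneg (by linarith)]; linarith
      · have : ((l : ℕ) : ℝ) + 1 ≤ ((k : ℕ) : ℝ) := by exact_mod_cast h
        rw [abs_of_nonneg (by linarith)]; linarith
    nlinarith
  have hloc : ∀ (y : ℝ) (w : V), w ∈ Fat G f C {pt 0 y} →
      |f w 0| ≤ 6 * C ∧ |f w 1 - y| ≤ 6 * C := by
    intro y w hw
    obtain ⟨p, hp, hpw⟩ := (hC V G f C hR {pt 0 y}).2 w hw
    rw [Set.mem_singleton_iff] at hp
    subst hp
    constructor
    · have := abs_coord_le (f w) (pt 0 y) 0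
      simp [pt] at this
      exact le_trans this (by simpa [pt] using hpw)
    · have := abs_coord_le (f w) (pt 0 y) 1
      simp [pt] at this
      exact le_trans this (by simpa [pt] using hpw)
  refine ⟨?_, ?_, hsep, ?_, ?_⟩
  · intro k
    exact (hC V G f C hR _).1 isPreconnected_singleton (Set.singleton_nonempty _)
  · intro k l hkl
    rw [Set.disjoint_left]
    intro w hw1 hw2
    have h1 := (hloc _ w hw1).2
    have h2 := (hloc _ w hw2).2
    have h3 := hsep k l hkl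
    have h4 : |200 * C * ((k : ℕ) : ℝ) - 200 * C * ((l : ℕ) : ℝ)| ≤ 12 * C := by
      rw [abs_le] at h1 h2 ⊢
      constructor <;> linarith [h1.1, h1.2, h2.1, h2.2]
    linarith
  · intro k w hw
    obtain ⟨h1, h2⟩ := hloc _ w hw
    rw [abs_le] at h1
    refine ⟨by linarith [h1.2], fun _ => by linarith⟩
  · intro k w hw
    refine ⟨w, ⟨_, Set.mem_singleton _, hw⟩, ?_⟩
    simp
    linarith

theorem s_FINK (hC : S_CON) (hN : S_NEIGH) : S_FINK := by
  intro V G f C hR t
  have key : ∀ S : Finset (Fin t × Fin t), (∀ p ∈ S, p.1 ≠ p.2) →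
      ∃ (X : ℝ) (eta' : Fin t → ℝ) (B' : Fin t → Set V), St G f C X eta' B' ∧
        ∀ p ∈ S, ∃ u ∈ B' p.1, ∃ v ∈ B' p.2, G.Adj u v := by
    intro S
    induction S using Finset.induction_on with
    | empty => intro _; exact ⟨0, _, _, first_state hC G f C hR t, by simp⟩
    | insert p S hp ih =>
      intro h
      obtain ⟨X, e, B1, h1, h2⟩ := ih (fun q hq => h q (Finset.mem_insert_of_mem hq))
      obtain ⟨X', e', B2, h3, h4, u, hu, v, hv, huv⟩ :=
        hN V G f C hR t X e B1 p.1 p.2 h1 (h p (Finset.mem_insert_self _ _))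
      refine ⟨X', e', B2, h4, ?_⟩
      intro q hq
      rcases Finset.mem_insert.1 hq with rfl | hq
      · exact ⟨u, hu, v, hv, huv⟩
      · obtain ⟨u, hu, v, hv, huv⟩ := h2 q hq
        exact ⟨u, h3 _ hu, v, h3 _ hv, huv⟩
  obtain ⟨X, e, B', h1, h2⟩ := key (Finset.univ.filter (fun p => p.1 ≠ p.2))
    (by intro p hp; simpa using hp)
  exact ⟨B', h1.conn, h1.disj, fun i j hij => h2 (i, j) (by simpa using hij)⟩

end Pool.Agent.L7h93.PM
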