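import Pool.Agent.L7h49.PM.Def5

set_option autoImplicit false

/-!
# Project PM, part FINKB: the final induction in a disc
-/

namespace Pool.Agent.L7h93.PM

open Pool.Agent.L7h49.PM

theorem abs_coord_leB (v p : E2) (i : Fin 2) : |v i - p i| ≤ ‖v - p‖ := by
  have h := PiLp.norm_apply_le (v - p) i
  simpa [Real.norm_eq_abs] using h

theorem norm_pt0 (y : ℝ) : ‖pt 0 y‖ = |y| := by
  rw [EuclideanSpace.norm_eq, Fin.sum_univ_two]
  simp [pt, Real.sqrt_sq_eq_abs]

theorem first_stateB (hC : S_CONB) {V : Type} (G : SimpleGraph V) (f : V → E2) (C D : ℝ)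
    (hR : RoughB G f C D) (t : ℕ) (hD : ∀ k : Fin t, 200 * C * ((k : ℕ) : ℝ) ≤ D) :
    St G f C 0 (fun k : Fin t => 200 * C * ((k : ℕ) : ℝ))
      (fun k => Fat G f C {pt 0 (200 * C * ((k : ℕ) : ℝ))}) := by
  have hC1 : 1 ≤ C := hR.one
  have hin : ∀ k : Fin t, ∀ p ∈ ({pt 0 (200 * C * ((k : ℕ) : ℝ))} : Set E2), ‖p‖ ≤ D := by
    intro k p hp
    rw [Set.mem_singleton_iff] at hp
    subst hp
    rw [norm_pt0, abs_of_nonneg (by positivity)]
    exact hD k
  have hsep : ∀ k l : Fin t, k ≠ l →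
      200 * C ≤ |200 * C * ((k : ℕ) : ℝ) - 200 * C * ((l : ℕ) : ℝ)| := by
    intro k l hkl
    have hkl' : (k : ℕ) ≠ (l : ℕ) := fun h => hkl (Fin.ext h)
    rw [← mul_sub, abs_mul, abs_of_pos (by linarith : (0:ℝ) < 200 * C)]
    have h1 : (1:ℝ) ≤ |((k : ℕ) : ℝ) - ((l : ℕ) : ℝ)| := by
      rcases lt_or_gt_of_ne hkl' with h | h
      · have : ((k : ℕ) : ℝ) + 1 ≤ ((l : ℕ) : ℝ) := by exact_mod_cast h
        rw [abs_sub_comm, abs_of_nonneg (by linarith)]; linarith
      · have : ((l : ℕ) : ℝ) + 1 ≤ ((k : ℕ) : ℝ) := by exact_mod_cast h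
        rw [abs_of_nonneg (by linarith)]; linarith
    nlinarith
  have hloc : ∀ (k : Fin t) (w : V), w ∈ Fat G f C {pt 0 (200 * C * ((k : ℕ) : ℝ))} →
      |f w 0| ≤ 6 * C ∧ |f w 1 - 200 * C * ((k : ℕ) : ℝ)| ≤ 6 * C := by
    intro k w hw
    obtain ⟨p, hp, hpw⟩ := (hC V G f C D hR _ (hin k)).2 w hw
    rw [Set.mem_singleton_iff] at hp
    subst hp
    constructor
    · have := abs_coord_leB (f w) (pt 0 (200 * C * ((k : ℕ) : ℝ))) 0
      simp [pt] at this
      exact le_trans this (by simpa [pt] using hpw)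
    · have := abs_coord_leB (f w) (pt 0 (200 * C * ((k : ℕ) : ℝ))) 1
      simp [pt] at this
      exact le_trans this (by simpa [pt] using hpw)
  refine ⟨?_, ?_, hsep, ?_, ?_⟩
  · intro k
    exact (hC V G f C D hR _ (hin k)).1 isPreconnected_singleton (Set.singleton_nonempty _)
  · intro k l hkl
    rw [Set.disjoint_left]
    intro w hw1 hw2
    have h1 := (hloc k w hw1).2
    have h2 := (hloc l w hw2).2
    have h3 := hsep k l hkl
    have h4 : |200 * C * ((k : ℕ) : ℝ) - 200 * C * ((l : ℕ) : ℝ)| ≤ 12 * C := by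
      rw [abs_le] at h1 h2 ⊢
      constructor <;> linarith [h1.1, h1.2, h2.1, h2.2]
    linarith
  · intro k w hw
    obtain ⟨h1, h2⟩ := hloc k w hw
    rw [abs_le] at h1
    refine ⟨by linarith [h1.2], fun _ => by linarith⟩
  · intro k w hw
    refine ⟨w, ⟨_, Set.mem_singleton _, hw⟩, ?_⟩
    simp
    linarith

theorem s_FINKB (hC : S_CONB) (hN : S_NEIGHB) : S_FINKB := by
  intro V G f C D hR t L hL1 hL2 hD
  have hC1 : 1 ≤ C := hR.one
  have ht0 : (0 : ℝ) ≤ (t : ℝ) := Nat.cast_nonneg _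
  have hL0 : 0 < L := lt_of_lt_of_le (Real.exp_pos _) hL1
  have hk : ∀ k : Fin t, 200 * C * ((k : ℕ) : ℝ) ≤ 2 * L := by
    intro k
    have h1 : ((k : ℕ) : ℝ) ≤ (t : ℝ) := by exact_mod_cast k.2.le
    have h2 : C * ((k : ℕ) : ℝ) ≤ C * (t : ℝ) := mul_le_mul_of_nonneg_left h1 (by linarith)
    nlinarith
  have h3D : 60 * L ≤ D := by
    have h1 : (1 : ℝ) ≤ ((t : ℝ) + 1) ^ 3 := one_le_pow₀ (by linarith)
    nlinarith
  have key : ∀ S : Finset (Fin t × Fin t), (∀ p ∈ S, p.1 ≠ p.2) →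
      ∃ (X : ℝ) (eta' : Fin t → ℝ) (B' : Fin t → Set V), St G f C X eta' B' ∧
        (|X| ≤ 2 * L + 2 * ((t : ℝ) + 1) * L * S.card) ∧
        (∀ k, |eta' k| ≤ 2 * L + 2 * ((t : ℝ) + 1) * L * S.card) ∧
        ∀ p ∈ S, ∃ u ∈ B' p.1, ∃ v ∈ B' p.2, G.Adj u v := by
    intro S
    induction S using Finset.induction_on with
    | empty =>
      intro _
      refine ⟨0, _, _, first_stateB hC G f C D hR t (fun k => (hk k).trans (by linarith)),
        ?_, ?_, by simp⟩
      · simp only [abs_zero, Finset.card_empty, Nat.cast_zero, mul_zero, add_zero]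
        linarith
      · intro k
        simp only [Finset.card_empty, Nat.cast_zero, mul_zero, add_zero]
        rw [abs_of_nonneg (by positivity)]
        exact hk k
    | insert p S hp ih =>
      intro h
      obtain ⟨X, e, B1, h1, hX, he, h2⟩ := ih (fun q hq => h q (Finset.mem_insert_of_mem hq))
      have hcard : (insert p S).card ≤ t * t := by
        have := Finset.card_le_univ (insert p S)
        rwa [Fintype.card_prod, Fintype.card_fin] at this
      rw [Finset.card_insert_of_notMem hp] at hcard ⊢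
      have hc1 : (S.card : ℝ) ≤ (t : ℝ) * t := by
        have : S.card ≤ t * t := by omega
        exact_mod_cast this
      obtain ⟨X', e', B2, h3, h4, ⟨u, hu, v, hv, huv⟩, h5, h6⟩ :=
        hN V G f C D hR t X (2 * L + 2 * ((t : ℝ) + 1) * L * S.card) L e B1 p.1 p.2 h1
          (h p (Finset.mem_insert_self _ _)) hX he hL1 hL2 (by
            have g1 : ((t : ℝ) + 1) * L * S.card ≤ ((t : ℝ) + 1) * L * ((t : ℝ) * t) :=
              mul_le_mul_of_nonneg_left hc1 (by positivity)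
            have g2 : 6 * (2 * L + 2 * ((t : ℝ) + 1) * L * ((t : ℝ) * t) +
                2 * ((t : ℝ) + 1) * L) + 20 * L ≤ 60 * ((t : ℝ) + 1) ^ 3 * L := by
              have g3 : 0 ≤ L * ((t : ℝ) ^ 3) := by positivity
              have g4 : 0 ≤ L * ((t : ℝ) ^ 2) := by positivity
              have g5 : 0 ≤ L * (t : ℝ) := by positivity
              nlinarith
            nlinarith)
      refine ⟨X', e', B2, h4, ?_, ?_, ?_⟩
      · push_cast
        linarith
      · intro k
        have := h6 k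
        push_cast
        linarith
      · intro q hq
        rcases Finset.mem_insert.1 hq with rfl | hq
        · exact ⟨u, hu, v, hv, huv⟩
        · obtain ⟨u, hu, v, hv, huv⟩ := h2 q hq
          exact ⟨u, h3 _ hu, v, h3 _ hv, huv⟩
  obtain ⟨X, e, B', h1, -, -, h2⟩ := key (Finset.univ.filter (fun p => p.1 ≠ p.2))
    (by intro p hp; simpa using hp)
  exact ⟨B', h1.conn, h1.disj, fun i j hij => h2 (i, j) (by simpa using hij)⟩

end Pool.Agent.L7h93.PM
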